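import Pool.Agent.H27.L1.H68.GHK.UNW

/-!
Board ct (MP_52e316_nt): the sum over the universal family for the second moment, in windows of the
height up to a power of the order.
-/

set_option autoImplicit false

namespace Pool.Agent.H55.CT

open Pool.Agent.H27.L1.H68.GHY (log_le_pow block_ex)
open Pool.Agent.H27.L1.H68.GHK (blk_lt size_le sum_blk)

/-- the two terms of the second moment in one block -/
lemma two_terms {m N : ℕ} {X q v : ℝ} (hN : 1 ≤ N) (hNX : (N : ℝ) ≤ X) (hX : 1 ≤ X) (hq : 0 < q)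
    (hv : 1 ≤ v) (h : (N : ℝ) ^ (m + 1) * q ^ (m ^ 2) ≤ v * X ^ (m + 1)) :
    (2 / v) * ((N : ℝ) ^ m * (2 * q) ^ (m ^ 2) +
      ((N : ℝ) * X) ^ ((m : ℝ) / 2) * (2 * q) ^ ((m : ℝ) ^ 2 / 2)) ≤
      2 ^ (m ^ 2 + 2) * X ^ (m + 1) * (1 / (N : ℝ)) := by
  have hX0 : 0 < X := by linarith
  have hN0 : (0 : ℝ) < N := by exact_mod_cast hN
  have hv0 : 0 < v := by linarith
  obtain ⟨M, hM⟩ : ∃ M : ℝ, M = 2 ^ (m ^ 2 + 1) * X ^ (m + 1) * (1 / (N : ℝ)) := ⟨_, rfl⟩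
  have hM0 : 0 ≤ M := by
    rw [hM]
    positivity
  have h6 : (2 / v) * ((N : ℝ) ^ m * (2 * q) ^ (m ^ 2)) ≤ M := by
    have e : (2 / v) * ((N : ℝ) ^ m * (2 * q) ^ (m ^ 2)) =
        2 ^ (m ^ 2 + 1) * (((N : ℝ) ^ (m + 1) * q ^ (m ^ 2)) / v) * (1 / (N : ℝ)) := by
      rw [mul_pow, pow_succ (2 : ℝ) (m ^ 2), pow_succ (N : ℝ) m]
      field_simp
    rw [e, hM]
    refine mul_le_mul_of_nonneg_right (mul_le_mul_of_nonneg_left ?_ (by positivity))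
      (by positivity)
    rw [div_le_iff₀ hv0, mul_comm _ v]
    exact h
  obtain ⟨T, hT⟩ : ∃ T : ℝ, T = ((N : ℝ) * X) ^ ((m : ℝ) / 2) * (2 * q) ^ ((m : ℝ) ^ 2 / 2) :=
    ⟨_, rfl⟩
  have hT0 : 0 ≤ T := by
    rw [hT]
    positivity
  have hT2 : T ^ 2 = ((N : ℝ) ^ m * (2 * q) ^ (m ^ 2)) * X ^ m := by
    have e1 : (((N : ℝ) * X) ^ ((m : ℝ) / 2)) ^ 2 = ((N : ℝ) * X) ^ m := by
      rw [← Real.rpow_natCast _ 2, ← Real.rpow_mul (by positivity), ← Real.rpow_natCast _ m]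
      congr 1
      push_cast
      ring
    have e2 : ((2 * q) ^ ((m : ℝ) ^ 2 / 2)) ^ 2 = (2 * q) ^ (m ^ 2) := by
      rw [← Real.rpow_natCast _ 2, ← Real.rpow_mul (by positivity), ← Real.rpow_natCast _ (m ^ 2)]
      congr 1
      push_cast
      ring
    rw [hT, mul_pow, e1, e2, mul_pow]
    ring
  have hXM : 2 * X ^ m ≤ M := by
    have e : 2 * X ^ m = 2 ^ 1 * (X ^ m * N) * (1 / (N : ℝ)) := by
      field_simp
    rw [e, hM]
    refine mul_le_mul_of_nonneg_right ?_ (by positivity)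
    refine mul_le_mul (pow_le_pow_right₀ (by norm_num) (by omega)) ?_ (by positivity)
      (by positivity)
    rw [pow_succ]
    exact mul_le_mul_of_nonneg_left hNX (by positivity)
  have h7 : (2 / v) * T ≤ M := by
    refine le_of_sq_le_sq ?_ hM0
    have e : ((2 / v) * T) ^ 2 = ((2 / v) * ((N : ℝ) ^ m * (2 * q) ^ (m ^ 2))) *
        ((2 / v) * X ^ m) := by
      rw [mul_pow, hT2]
      ring
    rw [e, sq M]
    refine mul_le_mul h6 (le_trans ?_ hXM) (by positivity) hM0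
    refine mul_le_mul_of_nonneg_right ?_ (by positivity)
    rw [div_le_iff₀ hv0]
    linarith
  rw [mul_add, ← hT]
  refine (add_le_add h6 h7).trans (le_of_eq ?_)
  rw [hM]
  ring

open Classical in
/-- the sum over the universal family, with weights in the ordering, for the second moment -/
theorem universal_sum_t (m : ℕ) (hm : 1 ≤ m) (ε : ℝ) (hε : 0 < ε) : ∃ (e1 C : ℝ), 0 < e1 ∧
    0 < C ∧ ∀ (C1 : ℝ), 0 ≤ C1 → ∀ (S : ℕ → Type) [∀ N, Fintype (S N)]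
      (P w a : ∀ N : ℕ, S N → ℝ) (X : ℝ), 1 ≤ X →
    (∀ N : ℕ, 1 ≤ N → ∀ i, 1 ≤ P N i ∧ 1 ≤ w N i ∧ w N i ≤ P N i ^ (m * (m - 1) / 2) ∧
      0 ≤ a N i) →
    (∀ N : ℕ, 1 ≤ N → (N : ℝ) ≤ X → ∀ Q : ℝ, 1 ≤ Q →
      ∑ i ∈ Finset.univ.filter (fun i : S N => P N i ≤ Q), w N i * a N i ≤
        C1 * (X * Q) ^ e1 * ((N : ℝ) ^ m * Q ^ (m ^ 2) +
          ((N : ℝ) * X) ^ ((m : ℝ) / 2) * Q ^ ((m : ℝ) ^ 2 / 2))) →
      ∑ N ∈ Finset.Icc 1 ⌊X⌋₊, ∑ i ∈ Finset.univ.filter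
        (fun i : S N => (N : ℝ) ^ (m + 1) * P N i ^ (m ^ 2) ≤ w N i * X ^ (m + 1)), a N i ≤
        C * C1 * X ^ ((m : ℝ) + 1 + ε) := by
  obtain ⟨e1, he1, he1ε⟩ : ∃ e1 : ℝ, 0 < e1 ∧ 6 * e1 ≤ ε :=
    ⟨ε / 6, by positivity, by linarith⟩
  obtain ⟨CL, hCL, hlog⟩ := log_le_pow e1 he1
  obtain ⟨B, hB⟩ : ∃ B : ℕ, B = 2 * (m * (m - 1) / 2) + 2 := ⟨_, rfl⟩
  have hB2 : 2 ≤ B := by omega
  refine ⟨e1, (2 * B + 2) ^ 2 * CL ^ 3 * (2 ^ e1 * 2 ^ (m ^ 2 + 2)), he1, by positivity, ?_⟩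
  intro C1 hC1 S _ P w a X hX hF hS
  have hX0 : 0 < X := by linarith
  have hlX : 0 ≤ Real.log X := Real.log_nonneg hX
  obtain ⟨K, hK⟩ : ∃ K : ℕ, K = ⌊(B : ℝ) * (2 * Real.log X)⌋₊ + 2 := ⟨_, rfl⟩
  have hKle : (K : ℝ) ≤ (2 * B + 2) * (CL * X ^ e1) := by
    have h1 : (⌊(B : ℝ) * (2 * Real.log X)⌋₊ : ℝ) ≤ (B : ℝ) * (2 * Real.log X) :=
      Nat.floor_le (by positivity)
    have h2 : (K : ℝ) ≤ (2 * B + 2) * (1 + Real.log X) := by
      rw [hK]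
      push_cast
      nlinarith
    exact h2.trans (mul_le_mul_of_nonneg_left (hlog X hX) (by positivity))
  -- one level
  have key : ∀ N ∈ Finset.Icc 1 ⌊X⌋₊, ∑ i ∈ Finset.univ.filter
      (fun i : S N => (N : ℝ) ^ (m + 1) * P N i ^ (m ^ 2) ≤ w N i * X ^ (m + 1)), a N i ≤
      (K : ℝ) ^ 2 * (C1 * (2 ^ e1 * X ^ (3 * e1)) * 2 ^ (m ^ 2 + 2) * X ^ (m + 1)) *
        (1 / (N : ℝ)) := by
    intro N hN
    obtain ⟨hN1, hNX⟩ := Finset.mem_Icc.1 hN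
    have hNX' : (N : ℝ) ≤ X := (Nat.le_floor_iff hX0.le).1 hNX
    have hN0 : (0 : ℝ) < N := by exact_mod_cast hN1
    have hNr : (1 : ℝ) ≤ N := by exact_mod_cast hN1
    have hsz : ∀ i : S N, (N : ℝ) ^ (m + 1) * P N i ^ (m ^ 2) ≤ w N i * X ^ (m + 1) →
        P N i ≤ X ^ 2 := by
      intro i hi
      obtain ⟨h1, h2, h3, h4⟩ := hF N hN1 i
      exact size_le hm hN1 hX h1 h3 hi
    have hblk := sum_blk (fun i : S N => (N : ℝ) ^ (m + 1) * P N i ^ (m ^ 2) ≤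
        w N i * X ^ (m + 1)) (a N) (fun i => (hF N hN1 i).2.2.2)
      (fun k l i => ((2 : ℝ) ^ k / 2 < P N i ∧ P N i ≤ (2 : ℝ) ^ k) ∧
        ((2 : ℝ) ^ l / 2 < w N i ∧ w N i ≤ (2 : ℝ) ^ l)) K K (by
        intro i hi
        obtain ⟨h1, h2, h3, h4⟩ := hF N hN1 i
        have h5 := hsz i hi
        obtain ⟨k, hk1, hk2⟩ := block_ex (P N i) h1
        obtain ⟨l, hl1, hl2⟩ := block_ex (w N i) h2
        refine ⟨k, Finset.mem_range.2 ?_, l, Finset.mem_range.2 ?_, ⟨hk1, hk2⟩, hl1, hl2⟩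
        · rw [hK]
          exact blk_lt hX hk1 (h5.trans (pow_le_pow_right₀ hX hB2))
        · rw [hK]
          refine blk_lt hX hl1 (h3.trans ?_)
          calc P N i ^ (m * (m - 1) / 2) ≤ (X ^ 2) ^ (m * (m - 1) / 2) :=
                pow_le_pow_left₀ (by linarith) h5 _
            _ = X ^ (2 * (m * (m - 1) / 2)) := by rw [← pow_mul]
            _ ≤ X ^ B := pow_le_pow_right₀ hX (by omega))
    refine hblk.trans ?_
    have hone : ∀ k ∈ Finset.range K, ∀ l ∈ Finset.range K,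
        ∑ i ∈ Finset.univ.filter (fun i : S N => ((N : ℝ) ^ (m + 1) * P N i ^ (m ^ 2) ≤
          w N i * X ^ (m + 1)) ∧ ((2 : ℝ) ^ k / 2 < P N i ∧ P N i ≤ (2 : ℝ) ^ k) ∧
          ((2 : ℝ) ^ l / 2 < w N i ∧ w N i ≤ (2 : ℝ) ^ l)), a N i ≤
        C1 * (2 ^ e1 * X ^ (3 * e1)) * 2 ^ (m ^ 2 + 2) * X ^ (m + 1) * (1 / (N : ℝ)) := by
      intro k _ l _
      rcases Finset.eq_empty_or_nonempty (Finset.univ.filter (fun i : S N =>
          ((N : ℝ) ^ (m + 1) * P N i ^ (m ^ 2) ≤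
          w N i * X ^ (m + 1)) ∧ ((2 : ℝ) ^ k / 2 < P N i ∧ P N i ≤ (2 : ℝ) ^ k) ∧
          ((2 : ℝ) ^ l / 2 < w N i ∧ w N i ≤ (2 : ℝ) ^ l))) with h0 | ⟨i0, hi0⟩
      · rw [h0, Finset.sum_empty]
        positivity
      obtain ⟨hc0, ⟨hk1, hk2⟩, hl1, hl2⟩ := (Finset.mem_filter.1 hi0).2
      obtain ⟨q, hq⟩ : ∃ q : ℝ, q = (2 : ℝ) ^ k / 2 := ⟨_, rfl⟩
      obtain ⟨v, hv⟩ : ∃ v : ℝ, v = (2 : ℝ) ^ l := ⟨_, rfl⟩
      have hq0 : 0 < q := by rw [hq]; positivity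
      have hv1 : 1 ≤ v := by
        rw [hv]
        exact one_le_pow₀ (by norm_num)
      have hv0 : 0 < v := by linarith
      have h2k : (2 : ℝ) ^ k = 2 * q := by rw [hq]; ring
      rw [← hq] at hk1
      rw [← hv] at hl1 hl2
      rw [h2k] at hk2
      -- the weighted sum
      have h1 : ∑ i ∈ Finset.univ.filter (fun i : S N => ((N : ℝ) ^ (m + 1) * P N i ^ (m ^ 2) ≤
          w N i * X ^ (m + 1)) ∧ ((2 : ℝ) ^ k / 2 < P N i ∧ P N i ≤ (2 : ℝ) ^ k) ∧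
          ((2 : ℝ) ^ l / 2 < w N i ∧ w N i ≤ (2 : ℝ) ^ l)), a N i ≤
          ∑ i ∈ Finset.univ.filter (fun i : S N => P N i ≤ (2 : ℝ) ^ k),
            (2 / v) * (w N i * a N i) := by
        refine (Finset.sum_le_sum (g := fun i => (2 / v) * (w N i * a N i)) fun i hi => ?_).trans
          (Finset.sum_le_sum_of_subset_of_nonneg ?_ ?_)
        · obtain ⟨_, _, hl, _⟩ := (Finset.mem_filter.1 hi).2
          rw [← hv] at hl
          have ha := (hF N hN1 i).2.2.2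
          have h2 : 1 ≤ 2 / v * w N i := by
            rw [div_mul_eq_mul_div, le_div_iff₀ hv0]
            linarith
          calc a N i = 1 * a N i := (one_mul _).symm
            _ ≤ 2 / v * w N i * a N i := mul_le_mul_of_nonneg_right h2 ha
            _ = _ := by ring
        · intro i hi
          obtain ⟨_, ⟨_, hk⟩, _⟩ := (Finset.mem_filter.1 hi).2
          exact Finset.mem_filter.2 ⟨Finset.mem_univ _, hk⟩
        · intro i _ _
          obtain ⟨_, hw1, _, ha⟩ := hF N hN1 i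
          have : 0 ≤ w N i := by linarith
          positivity
      refine h1.trans ?_
      rw [← Finset.mul_sum]
      have h2 := hS N hN1 hNX' ((2 : ℝ) ^ k) (one_le_pow₀ (by norm_num))
      rw [h2k] at h2 ⊢
      refine (mul_le_mul_of_nonneg_left h2 (by positivity)).trans ?_
      -- the size
      have h3 : q ≤ X ^ 2 := hk1.le.trans (hsz i0 hc0)
      have h4 : (X * (2 * q)) ^ e1 ≤ 2 ^ e1 * X ^ (3 * e1) := by
        have h5 : X * (2 * q) ≤ 2 * X ^ 3 := by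
          calc X * (2 * q) ≤ X * (2 * X ^ 2) :=
                mul_le_mul_of_nonneg_left (by linarith) hX0.le
            _ = 2 * X ^ 3 := by ring
        have h6 : (2 : ℝ) ^ e1 * X ^ (3 * e1) = (2 * X ^ 3) ^ e1 := by
          rw [Real.mul_rpow (by norm_num) (by positivity), ← Real.rpow_natCast X 3,
            ← Real.rpow_mul hX0.le]
          norm_num
        rw [h6]
        exact Real.rpow_le_rpow (by positivity) h5 he1.le
      have h5 : (N : ℝ) ^ (m + 1) * q ^ (m ^ 2) ≤ v * X ^ (m + 1) := by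
        have h6 : q ^ (m ^ 2) ≤ P N i0 ^ (m ^ 2) := pow_le_pow_left₀ hq0.le hk1.le _
        calc (N : ℝ) ^ (m + 1) * q ^ (m ^ 2) ≤ (N : ℝ) ^ (m + 1) * P N i0 ^ (m ^ 2) :=
              mul_le_mul_of_nonneg_left h6 (by positivity)
          _ ≤ w N i0 * X ^ (m + 1) := hc0
          _ ≤ v * X ^ (m + 1) := mul_le_mul_of_nonneg_right hl2 (by positivity)
      have h6 := two_terms hN1 hNX' hX hq0 hv1 h5
      calc (2 / v) * (C1 * (X * (2 * q)) ^ e1 * ((N : ℝ) ^ m * (2 * q) ^ (m ^ 2) +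
            ((N : ℝ) * X) ^ ((m : ℝ) / 2) * (2 * q) ^ ((m : ℝ) ^ 2 / 2))) =
          (C1 * (X * (2 * q)) ^ e1) * ((2 / v) * ((N : ℝ) ^ m * (2 * q) ^ (m ^ 2) +
            ((N : ℝ) * X) ^ ((m : ℝ) / 2) * (2 * q) ^ ((m : ℝ) ^ 2 / 2))) := by
            ring
        _ ≤ (C1 * (2 ^ e1 * X ^ (3 * e1))) * (2 ^ (m ^ 2 + 2) * X ^ (m + 1) * (1 / (N : ℝ))) :=
            mul_le_mul (mul_le_mul_of_nonneg_left h4 hC1) h6 (by positivity) (by positivity)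
        _ = _ := by ring
    refine (Finset.sum_le_sum (g := fun _ => ∑ _l ∈ Finset.range K,
      C1 * (2 ^ e1 * X ^ (3 * e1)) * 2 ^ (m ^ 2 + 2) * X ^ (m + 1) * (1 / (N : ℝ)))
      fun k hk => Finset.sum_le_sum fun l hl => ?_).trans ?_
    · have h9 := hone k hk l hl
      refine le_trans (le_of_eq (Finset.sum_congr ?_ fun _ _ => rfl)) h9
      ext i
      simp only [Finset.mem_filter]
    rw [Finset.sum_const, Finset.sum_const, Finset.card_range, nsmul_eq_mul, nsmul_eq_mul]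
    refine le_of_eq ?_
    ring
  refine (Finset.sum_le_sum key).trans ?_
  rw [← Finset.mul_sum]
  -- the sum of 1 / N
  have h1 : ∑ N ∈ Finset.Icc 1 ⌊X⌋₊, (1 / (N : ℝ)) ≤ CL * X ^ e1 := by
    have h3 : ∑ N ∈ Finset.Icc 1 ⌊X⌋₊, (1 / (N : ℝ)) ≤ 1 + Real.log X := by
      have h4 := harmonic_le_one_add_log ⌊X⌋₊
      have h5 : ((harmonic ⌊X⌋₊ : ℚ) : ℝ) = ∑ N ∈ Finset.Icc 1 ⌊X⌋₊, (1 / (N : ℝ)) := by
        rw [harmonic_eq_sum_Icc]
        push_cast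
        refine Finset.sum_congr rfl (fun N _ => by rw [one_div])
      rw [← h5]
      refine h4.trans ?_
      have h6 : (⌊X⌋₊ : ℝ) ≤ X := Nat.floor_le hX0.le
      have h7 : (1 : ℝ) ≤ (⌊X⌋₊ : ℝ) := by
        have : 1 ≤ ⌊X⌋₊ := Nat.le_floor (by exact_mod_cast hX)
        exact_mod_cast this
      have := Real.log_le_log (by linarith) h6
      linarith
    exact h3.trans (hlog X hX)
  have hK2 : (K : ℝ) ^ 2 ≤ ((2 * B + 2) * (CL * X ^ e1)) ^ 2 :=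
    pow_le_pow_left₀ (by positivity) hKle 2
  calc (K : ℝ) ^ 2 * (C1 * (2 ^ e1 * X ^ (3 * e1)) * 2 ^ (m ^ 2 + 2) * X ^ (m + 1)) *
      ∑ N ∈ Finset.Icc 1 ⌊X⌋₊, (1 / (N : ℝ)) ≤
      ((2 * B + 2) * (CL * X ^ e1)) ^ 2 *
        (C1 * (2 ^ e1 * X ^ (3 * e1)) * 2 ^ (m ^ 2 + 2) * X ^ (m + 1)) * (CL * X ^ e1) := by
        refine mul_le_mul (mul_le_mul_of_nonneg_right hK2 (by positivity)) h1 ?_ (by positivity)
        exact Finset.sum_nonneg fun N _ => by positivity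
    _ = (2 * B + 2) ^ 2 * CL ^ 3 * (2 ^ e1 * 2 ^ (m ^ 2 + 2)) * C1 *
        (X ^ e1 * X ^ e1 * X ^ (3 * e1) * X ^ (m + 1) * X ^ e1) := by ring
    _ ≤ (2 * B + 2) ^ 2 * CL ^ 3 * (2 ^ e1 * 2 ^ (m ^ 2 + 2)) * C1 *
        X ^ ((m : ℝ) + 1 + ε) := by
        refine mul_le_mul_of_nonneg_left ?_ (by positivity)
        rw [← Real.rpow_natCast X (m + 1), ← Real.rpow_add hX0, ← Real.rpow_add hX0,
          ← Real.rpow_add hX0, ← Real.rpow_add hX0]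
        refine Real.rpow_le_rpow_of_exponent_le hX ?_
        push_cast
        linarith

end Pool.Agent.H55.CT
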